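import Mathlib

/-!
# MP_cf4097_nt: the class of standard L-functions of degree `n` (common definitions)

All unitary cuspidal automorphic representations `π` of `GL_n(A_Q)` (`π` not a twist `|.|^{it}` of the
trivial character if `n = 1`) give data with `Std (θ_n) (K_n)`, where `θ_n < 1/2` and `K_n` depend on `n` only:
`a (p^k)` is the `k`-th power sum of the Satake parameters at `p`, `q` the arithmetic conductor, `μ` the
archimedean parameters. (Godement-Jacquet: entire, functional equation, polynomial growth in vertical strips;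
Jacquet-Shalika, Luo-Rudnick-Sarnak, Müller-Speh: bounds for the parameters; Rankin-Selberg theory: `rs`.)
-/

set_option autoImplicit false

open Complex

namespace Pool.Agent.CF

/-- The data of a standard L-function of degree `n`: the function `L`, the coefficients `a m` at the prime
powers (`a (p^k)` = sum of the `k`-th powers of the Satake parameters at `p`), the arithmetic conductor `q`
and the archimedean parameters `μ`. -/
structure LDatum (n : ℕ) where
  /-- the L-function -/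
  L : ℂ → ℂ
  /-- the coefficients at prime powers -/
  a : ℕ → ℂ
  /-- the arithmetic conductor -/
  q : ℝ
  /-- the archimedean parameters -/
  μ : Fin n → ℂ

/-- The analytic conductor `Q(π, 1/2 + it)`. -/
noncomputable def LDatum.Q {n : ℕ} (D : LDatum n) (t : ℝ) : ℝ :=
  D.q * ∏ j, (1 + ‖(1 / 2 : ℂ) + t * I + D.μ j‖)

/-- The known properties of standard L-functions of degree `n`, with constants `θ < 1/2` and `K`. -/
structure Std {n : ℕ} (θ K : ℝ) (D : LDatum n) : Prop where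
  /-- the conductor is at least 1 -/
  q1 : 1 ≤ D.q
  /-- `L` is entire -/
  entire : Differentiable ℂ D.L
  /-- `L` has polynomial growth in vertical strips -/
  growth : ∀ A : ℝ, ∃ B : ℝ, ∀ s : ℂ, |s.re| ≤ A → ‖D.L s‖ ≤ B * (1 + |s.im|) ^ B
  /-- Euler product (logarithm) for `Re s > 1` -/
  euler : ∀ s : ℂ, 1 < s.re → D.L s = Complex.exp (∑' m : ℕ,
    (ArithmeticFunction.vonMangoldt m : ℂ) * D.a m / (Real.log m : ℂ) * (m : ℂ) ^ (-s))
  /-- bound for the Satake parameters -/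
  lrs : ∀ m : ℕ, IsPrimePow m → ‖D.a m‖ ≤ n * (m : ℝ) ^ θ
  /-- bound for the archimedean parameters -/
  lrsμ : ∀ j, -θ ≤ (D.μ j).re
  /-- Rankin-Selberg bound -/
  rs : ∀ σ : ℝ, 0 < σ → σ ≤ 1 → ∀ t : ℝ,
    Summable (fun m : ℕ => ArithmeticFunction.vonMangoldt m * ‖D.a m‖ ^ 2 * (m : ℝ) ^ (-1 - σ)) ∧
    ∑' m : ℕ, ArithmeticFunction.vonMangoldt m * ‖D.a m‖ ^ 2 * (m : ℝ) ^ (-1 - σ) ≤
      K * (1 / σ + 1 + Real.log (D.Q t))
  /-- functional equation `Λ(s) = w * conj (Λ(1 - conj s))`, `Λ(s) = q^{s/2} ∏ Γ_ℝ(s + μ_j) L(s)`, multiplied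
  by the entire functions `1 / Γ_ℝ` so that there are no poles -/
  fe : ∃ w : ℂ, ‖w‖ = 1 ∧ ∀ s : ℂ,
    (D.q : ℂ) ^ (s / 2) * D.L s * ∏ j, (Gammaℝ (1 - s + (starRingEnd ℂ) (D.μ j)))⁻¹ =
    w * ((D.q : ℂ) ^ ((1 - s) / 2) * (starRingEnd ℂ) (D.L (1 - (starRingEnd ℂ) s)) *
      ∏ j, (Gammaℝ (s + D.μ j))⁻¹)

/-- Uniform subconvexity for a set `F` of data (the statement of Q1 for `F`). -/
def Subconvex {n : ℕ} (F : Set (LDatum n)) : Prop :=
  ∃ δ : ℝ, 0 < δ ∧ ∀ ε : ℝ, 0 < ε → ∃ C : ℝ, ∀ D ∈ F, ∀ t : ℝ,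
    ‖D.L (1 / 2 + t * I)‖ ≤ C * (D.Q t) ^ (1 / 4 - δ + ε)

end Pool.Agent.CF
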